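/-
A synchronising automaton on words over `Fin n`: it remembers the last letter, whether the last
step was a weak ascent, the recent first descents, a parity bit and the (capped) length of the
current run.
-/
import Mathlib

set_option autoImplicit false

namespace Pool.Agent.H333R3.Edge

/-- States. -/
@[ext] structure St (n : ℕ) where
  x : Fin n
  asc : Bool
  d0 : Bool
  d1 : Bool
  d2 : Bool
  par : Bool
  q : ℕ

variable {n : ℕ}

/-- Transition. -/
def step (N : ℕ) (s : St n) (j : Fin n) : St n where
  x := j
  asc := decide (s.x ≤ j)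
  d0 := s.asc && decide (j < s.x)
  d1 := s.d0
  d2 := s.d1
  par := if s.d2 = true ∨ (j = s.x ∧ N + 4 ≤ s.q + 1) ∨ (s.q = N + 4 ∧ j ≠ s.x) then false
    else !s.par
  q := if j = s.x then min (s.q + 1) (N + 4) else 1

/-- Valid states. -/
structure Valid (N : ℕ) (s : St n) : Prop where
  q1 : 1 ≤ s.q
  qQ : s.q ≤ N + 4
  h21 : ¬ (s.d2 = true ∧ s.d1 = true)
  h10 : ¬ (s.d1 = true ∧ s.d0 = true)
  h0a : s.d0 = true → s.asc = false
  h0q : s.d0 = true → s.q ≤ 1
  h1q : s.d1 = true → s.q ≤ 2
  h2q : s.d2 = true → s.q ≤ 3
  hpar : s.q = N + 4 → s.par = false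

theorem Valid.step {N : ℕ} {s : St n} (h : Valid N s) (j : Fin n) : Valid N (step N s j) := by
  obtain ⟨q1, qQ, h21, h10, h0a, h0q, h1q, h2q, hpar⟩ := h
  refine ⟨?_, ?_, ?_, ?_, ?_, ?_, ?_, ?_, ?_⟩
  · simp only [Edge.step]; split <;> omega
  · simp only [Edge.step]; split <;> omega
  · simp only [Edge.step]; exact h10
  · simp only [Edge.step]
    rintro ⟨h, h'⟩
    rw [Bool.and_eq_true] at h'
    rw [h0a h] at h'
    exact absurd h'.1 (by decide)
  · simp only [Edge.step]
    intro h
    rw [Bool.and_eq_true, decide_eq_true_eq] at h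
    rw [decide_eq_false_iff_not]
    exact not_le.mpr h.2
  · simp only [Edge.step]
    intro h
    rw [Bool.and_eq_true, decide_eq_true_eq] at h
    rw [if_neg (ne_of_lt h.2)]
  · simp only [Edge.step]
    intro h
    have := h0q h
    split <;> omega
  · simp only [Edge.step]
    intro h
    have := h1q h
    split <;> omega
  · simp only [Edge.step]
    intro h
    rw [if_pos]
    right; left
    by_cases hj : j = s.x
    · refine ⟨hj, ?_⟩
      rw [if_pos hj] at h
      omega
    · rw [if_neg hj] at h
      omega

/-- All words of length `d` synchronise `s` and `s'`. -/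
def Sync (N : ℕ) : ℕ → St n → St n → Prop
  | 0, s, s' => s = s'
  | d + 1, s, s' => ∀ j, Sync N d (step N s j) (step N s' j)

theorem sync_refl (N : ℕ) : ∀ (d : ℕ) (s : St n), Sync N d s s
  | 0, _ => rfl
  | d + 1, s => fun j => sync_refl N d (step N s j)

theorem sync_succ (N : ℕ) : ∀ (d : ℕ) (s s' : St n), Sync N d s s' → Sync N (d + 1) s s'
  | 0, s, s', h => by
    have h' : s = s' := h
    subst h'
    exact sync_refl N 1 s
  | d + 1, s, s', h => fun j => sync_succ N d _ _ (h j)

theorem sync_mono (N : ℕ) {d d' : ℕ} (hd : d ≤ d') {s s' : St n} (h : Sync N d s s') :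
    Sync N d' s s' := by
  induction hd with
  | refl => exact h
  | step _ ih => exact sync_succ N _ _ _ ih

/-- Agreement on everything except the parity and the run length. -/
structure EqE (s s' : St n) : Prop where
  x : s.x = s'.x
  asc : s.asc = s'.asc
  d0 : s.d0 = s'.d0
  d1 : s.d1 = s'.d1
  d2 : s.d2 = s'.d2

theorem EqE.step {s s' : St n} (h : EqE s s') (N : ℕ) (j : Fin n) :
    EqE (step N s j) (step N s' j) := by
  obtain ⟨h1, h2, h3, h4, h5⟩ := h
  constructor
  · rfl
  · simp only [Edge.step, h1]
  · simp only [Edge.step, h1, h2]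
  · simp only [Edge.step, h3]
  · simp only [Edge.step, h4]

theorem step_q_eq {s s' : St n} (h : EqE s s') (hq : s.q = s'.q) (N : ℕ) (j : Fin n) :
    (step N s j).q = (step N s' j).q := by
  simp only [step, h.x, hq]

theorem sync_d2 {N : ℕ} {s s' : St n} (h : EqE s s') (hq : s.q = s'.q) (hd : s.d2 = true) :
    Sync N 1 s s' := by
  intro j
  have h1 := h.step N j
  have h2 := step_q_eq h hq N j
  have hd' : s'.d2 = true := by rw [← h.d2]; exact hd
  have h3 : (step N s j).par = (step N s' j).par := by
    simp only [step]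
    rw [if_pos (Or.inl hd), if_pos (Or.inl hd')]
  exact St.ext h1.x h1.asc h1.d0 h1.d1 h1.d2 h3 h2

theorem sync_d1 {N : ℕ} {s s' : St n} (h : EqE s s') (hq : s.q = s'.q) (hd : s.d1 = true) :
    Sync N 2 s s' := by
  intro j
  exact sync_d2 (h.step N j) (step_q_eq h hq N j) hd

theorem sync_d0 {N : ℕ} {s s' : St n} (h : EqE s s') (hq : s.q = s'.q) (hd : s.d0 = true) :
    Sync N 3 s s' := by
  intro j
  exact sync_d1 (h.step N j) (step_q_eq h hq N j) hd

/-- The measure. -/
def mu (N : ℕ) (s : St n) (c : ℕ) : ℕ :=
  if s.asc = true then (n - s.x.val) * (N + 4) + (N + 4 - c)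
  else n * (N + 4) + (N + 4) + s.x.val + 1

theorem sync_main (N : ℕ) : ∀ (m : ℕ) (s s' : St n) (c : ℕ), Valid N s → Valid N s' → EqE s s' →
    c ≤ s.q → c ≤ s'.q → mu N s c ≤ m → Sync N (m + 4) s s' := by
  intro m
  induction m with
  | zero =>
    intro s s' c _ _ _ _ _ hm
    exfalso
    have hx := s.x.isLt
    unfold mu at hm
    split at hm
    · have : 1 * (N + 4) ≤ (n - s.x.val) * (N + 4) := Nat.mul_le_mul_right _ (by omega)
      omega
    · omega
  | succ m ih =>
    intro s s' c hv hv' hE hc hc' hm
    have hx := s.x.isLt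
    by_cases hcQ : N + 4 ≤ c
    · have e1 : s.q = N + 4 := le_antisymm hv.qQ (le_trans hcQ hc)
      have e2 : s'.q = N + 4 := le_antisymm hv'.qQ (le_trans hcQ hc')
      have : s = s' := St.ext hE.x hE.asc hE.d0 hE.d1 hE.d2
        ((hv.hpar e1).trans (hv'.hpar e2).symm) (e1.trans e2.symm)
      rw [this]
      exact sync_refl N _ _
    · push Not at hcQ
      intro j
      by_cases hD : s.asc = true ∧ j < s.x
      · refine sync_mono N (d := 3) (by omega) (sync_d0 (hE.step N j) ?_ ?_)
        · have h1 : j ≠ s.x := ne_of_lt hD.2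
          have h2 : j ≠ s'.x := by rw [← hE.x]; exact h1
          simp only [step, if_neg h1, if_neg h2]
        · simp only [step, hD.1, hD.2, decide_true, Bool.and_self]
      · refine ih (step N s j) (step N s' j) (if j = s.x then c + 1 else 1) (hv.step j)
          (hv'.step j) (hE.step N j) ?_ ?_ ?_
        · simp only [step]
          split <;> omega
        · simp only [step, ← hE.x]
          split <;> omega
        · have hjn := j.isLt
          have hjx : (j < s.x) ↔ j.val < s.x.val := Iff.rfl
          have hjx' : (s.x ≤ j) ↔ s.x.val ≤ j.val := Iff.rfl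
          have hje : (j = s.x) ↔ j.val = s.x.val := Fin.ext_iff
          simp only [mu, step, decide_eq_true_eq, hjx', hje]
          unfold mu at hm
          rw [hjx] at hD
          by_cases ha : s.asc = true
          · have hlt : s.x.val ≤ j.val := by
              by_contra hcon
              exact hD ⟨ha, by omega⟩
            rw [if_pos ha] at hm
            rw [if_pos hlt]
            by_cases hjj : j.val = s.x.val
            · rw [if_pos hjj, hjj]
              omega
            · rw [if_neg hjj]
              have : (n - j.val + 1) * (N + 4) ≤ (n - s.x.val) * (N + 4) :=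
                Nat.mul_le_mul_right _ (by omega)
              rw [Nat.add_mul] at this
              omega
          · rw [if_neg ha] at hm
            by_cases hlt : s.x.val ≤ j.val
            · rw [if_pos hlt]
              have : (n - j.val) * (N + 4) ≤ n * (N + 4) := Nat.mul_le_mul_right _ (by omega)
              split <;> omega
            · rw [if_neg hlt]
              omega

theorem sync_all (N : ℕ) (s s' : St n) (hs : Valid N s) (hs' : Valid N s') :
    Sync N ((n * (N + 4) + (N + 4) + n + 1) + 4 + 5) s s' := by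
  intro j1 j2 j3 j4 j5
  refine sync_main N _ _ _ 0 ?_ ?_ ?_ (Nat.zero_le _) (Nat.zero_le _) ?_
  · exact ((((hs.step j1).step j2).step j3).step j4).step j5
  · exact ((((hs'.step j1).step j2).step j3).step j4).step j5
  · exact ⟨rfl, rfl, rfl, rfl, rfl⟩
  · have := j5.isLt
    unfold mu
    split
    · have : (n - j5.val) * (N + 4) ≤ n * (N + 4) := Nat.mul_le_mul_right _ (by omega)
      change (n - j5.val) * (N + 4) + (N + 4 - 0) ≤ _
      omega
    · change n * (N + 4) + (N + 4) + j5.val + 1 ≤ _
      omega

end Pool.Agent.H333R3.Edge
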