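/-
A loop lemma for (possibly infinite) digraphs with a compatible idempotent operation.
-/
import Mathlib
import Pool.Agent.H333R3.Edge.Sync

set_option autoImplicit false

namespace Pool.Agent.H333R3.Edge

variable {n : ℕ} {X : Type*}

/-- Nested applications of `t` at coordinate `i`. -/
def nest (t : (Fin n → X) → X) (i : Fin n) (y g : X) : ℕ → X
  | 0 => g
  | k + 1 => t (Function.update (fun _ => y) i (nest t i y g k))

/-- Normal labels. -/
def F (r a e : X) (p d2 d1 : Bool) : X :=
  if p = true ∧ d1 = true then e else if p = false ∧ d2 = true then a else cond p a r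

/-- Labels of the states. -/
def lab (t : (Fin n → X) → X) (N : ℕ) (r a e : X) (γ : Fin n → X) (g : Bool → Fin n → ℕ → X)
    (s : St n) : X :=
  if s.q < 4 then F r a e s.par s.d2 s.d1
  else if s.q < N + 4 then
    nest t s.x (cond s.par a r) (g (xor s.par (Nat.bodd s.q)) s.x (s.q - 4)) (N + 4 - s.q)
  else γ s.x

theorem nest_idem (t : (Fin n → X) → X) (hid : ∀ x, t (fun _ => x) = x) (i : Fin n) (y : X) :
    ∀ k, nest t i y y k = y
  | 0 => rfl
  | k + 1 => by
    simp only [nest, nest_idem t hid i y k]
    rw [show Function.update (fun _ : Fin n => y) i y = (fun _ => y) from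
      Function.update_eq_self_iff.mpr rfl]
    exact hid y

theorem G_update {t : (Fin n → X) → X} {G : X → X → Prop}
    (hG : ∀ x y : Fin n → X, (∀ j, G (x j) (y j)) → G (t x) (t y)) {i : Fin n} {y y' g g' : X}
    (hy : G y y') (hg : G g g') :
    G (t (Function.update (fun _ => y) i g)) (t (Function.update (fun _ => y') i g')) := by
  refine hG _ _ (fun j => ?_)
  by_cases hj : j = i
  · subst hj
    simp only [Function.update_self]
    exact hg
  · simp only [Function.update_of_ne hj]
    exact hy

theorem G_nest {t : (Fin n → X) → X} {G : X → X → Prop}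
    (hG : ∀ x y : Fin n → X, (∀ j, G (x j) (y j)) → G (t x) (t y)) {i : Fin n} {y y' g g' : X}
    (hy : G y y') (hg : G g g') : ∀ k, G (nest t i y g k) (nest t i y' g' k)
  | 0 => hg
  | k + 1 => G_update hG hy (G_nest hG hy hg k)

/-- The hypotheses of the loop lemma. -/
structure Hyp (t : (Fin n → X) → X) (G : X → X → Prop) (N : ℕ) (r a e : X) (γ : Fin n → X)
    (g : Bool → Fin n → ℕ → X) : Prop where
  N1 : 1 ≤ N
  idem : ∀ x, t (fun _ => x) = x
  comp : ∀ x y : Fin n → X, (∀ j, G (x j) (y j)) → G (t x) (t y)
  ra : G r a
  ar : G a r
  re : G r e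
  ea : G e a
  g0 : ∀ b i, g b i 0 = cond b a r
  gN : ∀ b i, g b i N = γ i
  gs : ∀ b i c, c < N → G (g b i c) (g b i (c + 1))
  γs : ∀ i, G (γ i) (t (Function.update (fun _ => r) i (γ i)))

theorem F_step {G : X → X → Prop} {r a e : X} (ra : G r a) (ar : G a r) (re : G r e) (ea : G e a)
    (p d2 d1 d0 : Bool) (h21 : ¬ (d2 = true ∧ d1 = true)) (h10 : ¬ (d1 = true ∧ d0 = true)) :
    G (F r a e p d2 d1) (F r a e (if d2 = true then false else !p) d1 d0) := by
  cases p <;> cases d2 <;> cases d1 <;> cases d0 <;> simp_all [F]

theorem lab_step {t : (Fin n → X) → X} {G : X → X → Prop} {N : ℕ} {r a e : X} {γ : Fin n → X}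
    {g : Bool → Fin n → ℕ → X} (H : Hyp t G N r a e γ g) (s : St n) (hs : Valid N s) :
    G (lab t N r a e γ g s) (t (fun j => lab t N r a e γ g (step N s j))) := by
  have hN := H.N1
  have hqQ := hs.qQ
  have hq1 := hs.q1
  -- the labels of the successors
  have key : (fun j => lab t N r a e γ g (step N s j)) =
      Function.update (fun _ => F r a e (if s.d2 = true ∨ s.q = N + 4 then false else !s.par)
        s.d1 s.d0) s.x (lab t N r a e γ g (step N s s.x)) := by
    funext j
    by_cases hj : j = s.x
    · subst hj
      rw [Function.update_self]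
    · rw [Function.update_of_ne hj]
      unfold lab
      have hq : (step N s j).q = 1 := by simp only [step, if_neg hj]
      rw [if_pos (by rw [hq]; omega)]
      simp only [step, hj, false_and, false_or, ne_eq, not_false_eq_true, and_true]
  rw [key]
  by_cases hA : s.q + 1 < 4
  · -- normal step
    have hx : lab t N r a e γ g (step N s s.x) =
        F r a e (if s.d2 = true ∨ s.q = N + 4 then false else !s.par) s.d1 s.d0 := by
      unfold lab
      have hq : (step N s s.x).q = s.q + 1 := by
        simp only [step, if_true]; omega
      rw [if_pos (by rw [hq]; omega)]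
      have c1 : ¬ (N + 4 ≤ s.q + 1) := by omega
      have c2 : ¬ (s.q = N + 4) := by omega
      simp only [step, c1, c2, and_false, false_and, or_false]
    rw [hx, show Function.update (fun _ : Fin n => F r a e
      (if s.d2 = true ∨ s.q = N + 4 then false else !s.par) s.d1 s.d0) s.x (F r a e
      (if s.d2 = true ∨ s.q = N + 4 then false else !s.par) s.d1 s.d0) = (fun _ => F r a e
      (if s.d2 = true ∨ s.q = N + 4 then false else !s.par) s.d1 s.d0) from
      Function.update_eq_self_iff.mpr rfl, H.idem]
    unfold lab
    rw [if_pos (by omega)]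
    have c2 : ¬ (s.q = N + 4) := by omega
    simp only [c2, or_false]
    exact F_step H.ra H.ar H.re H.ea _ _ _ _ hs.h21 hs.h10
  · -- now `3 ≤ q`
    have hd0 : s.d0 = false := by
      by_contra h
      have := hs.h0q (by simpa using h)
      omega
    have hd1 : s.d1 = false := by
      by_contra h
      have := hs.h1q (by simpa using h)
      omega
    by_cases hB : s.q = 3
    · have hq : (step N s s.x).q = 4 := by
        simp only [step, if_true]; omega
      have c1 : ¬ (N + 4 ≤ s.q + 1) := by omega
      have c2 : ¬ (s.q = N + 4) := by omega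
      have hp : (step N s s.x).par = if s.d2 = true then false else !s.par := by
        simp only [step, c1, c2, and_false, false_and, or_false]
      have hx : lab t N r a e γ g (step N s s.x) =
          cond (if s.d2 = true then false else !s.par) a r := by
        unfold lab
        rw [if_neg (by rw [hq]; omega), if_pos (by rw [hq]; omega), hp, hq]
        have e1 : (xor (if s.d2 = true then false else !s.par) (Nat.bodd 4)) =
          (if s.d2 = true then false else !s.par) := by
          have : Nat.bodd 4 = false := by decide
          rw [this, Bool.xor_false]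
        rw [e1, H.g0, nest_idem t H.idem]
      have e2 : F r a e (if s.d2 = true then false else !s.par) s.d1 s.d0 =
          cond (if s.d2 = true then false else !s.par) a r := by
        rw [hd0, hd1]
        simp [F]
      have e3 : (if s.d2 = true ∨ s.q = N + 4 then false else !s.par) =
          (if s.d2 = true then false else !s.par) := by
        simp only [c2, or_false]
      rw [e3, hx, ← e2, show Function.update (fun _ : Fin n => F r a e
        (if s.d2 = true then false else !s.par) s.d1 s.d0) s.x (F r a e
        (if s.d2 = true then false else !s.par) s.d1 s.d0) = (fun _ => F r a e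
        (if s.d2 = true then false else !s.par) s.d1 s.d0) from
        Function.update_eq_self_iff.mpr rfl, H.idem]
      unfold lab
      rw [if_pos (by omega)]
      exact F_step H.ra H.ar H.re H.ea _ _ _ _ hs.h21 hs.h10
    · have hd2 : s.d2 = false := by
        by_contra h
        have := hs.h2q (by simpa using h)
        omega
      have hbase : ∀ p : Bool, G (cond p a r) (cond (!p) a r) := by
        intro p
        cases p
        · exact H.ra
        · exact H.ar
      have hF : ∀ p : Bool, F r a e p false false = cond p a r := by
        intro p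
        simp [F]
      by_cases hC : s.q = N + 4
      · -- the end of a run
        have hx : lab t N r a e γ g (step N s s.x) = γ s.x := by
          unfold lab
          have hq : (step N s s.x).q = N + 4 := by
            simp only [step, if_true]; omega
          rw [if_neg (by rw [hq]; omega), if_neg (by rw [hq]; omega)]
          rfl
        rw [hx, hd0, hd1, if_pos (Or.inr hC), hF]
        unfold lab
        rw [if_neg (by omega), if_neg (by omega)]
        exact H.γs s.x
      · have c3 : ¬ (s.d2 = true ∨ s.q = N + 4) := by
          rw [hd2]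
          simp [hC]
        rw [if_neg c3, hd0, hd1, hF]
        have hl : lab t N r a e γ g s =
            nest t s.x (cond s.par a r) (g (xor s.par (Nat.bodd s.q)) s.x (s.q - 4))
              (N + 4 - s.q) := by
          unfold lab
          rw [if_neg (by omega), if_pos (by omega)]
        have hg : G (g (xor s.par (Nat.bodd s.q)) s.x (s.q - 4))
            (g (xor s.par (Nat.bodd s.q)) s.x (s.q - 4 + 1)) := H.gs _ _ _ (by omega)
        have hnn : N + 4 - s.q = (N + 4 - (s.q + 1)) + 1 := by omega
        rw [hl, hnn]
        simp only [nest]
        have hx : lab t N r a e γ g (step N s s.x) =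
            nest t s.x (cond (!s.par) a r) (g (xor s.par (Nat.bodd s.q)) s.x (s.q - 4 + 1))
              (N + 4 - (s.q + 1)) := by
          have hq : (step N s s.x).q = s.q + 1 := by
            simp only [step, if_true]; omega
          unfold lab
          rw [if_neg (by rw [hq]; omega), hq]
          by_cases hD : s.q + 1 < N + 4
          · rw [if_pos hD]
            have hp : (step N s s.x).par = !s.par := by
              have c1 : ¬ (N + 4 ≤ s.q + 1) := by omega
              simp [step, c1, hC, hd2]
            rw [hp, Nat.bodd_succ]
            have e1 : xor (!s.par) (!Nat.bodd s.q) = xor s.par (Nat.bodd s.q) := by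
              cases s.par <;> cases Nat.bodd s.q <;> rfl
            rw [e1]
            have e2 : s.q + 1 - 4 = s.q - 4 + 1 := by omega
            rw [e2]
            rfl
          · rw [if_neg hD]
            have e3 : N + 4 - (s.q + 1) = 0 := by omega
            have e4 : s.q - 4 + 1 = N := by omega
            rw [e3, e4]
            simp only [nest]
            rw [H.gN]
            rfl
        rw [hx]
        exact G_update H.comp (hbase s.par) (G_nest H.comp (hbase s.par) hg _)

/-- Iterated labels. -/
def labk (t : (Fin n → X) → X) (N : ℕ) (ℓ : St n → X) : ℕ → St n → X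
  | 0, s => ℓ s
  | k + 1, s => t (fun j => labk t N ℓ k (step N s j))

theorem labk_step {t : (Fin n → X) → X} {G : X → X → Prop} {N : ℕ} {ℓ : St n → X}
    (hG : ∀ x y : Fin n → X, (∀ j, G (x j) (y j)) → G (t x) (t y))
    (h : ∀ s, Valid N s → G (ℓ s) (t (fun j => ℓ (step N s j)))) :
    ∀ k s, Valid N s → G (labk t N ℓ k s) (labk t N ℓ (k + 1) s)
  | 0, s, hs => h s hs
  | k + 1, _, hs => hG _ _ (fun j => labk_step hG h k _ (hs.step j))

theorem labk_sync {t : (Fin n → X) → X} {N : ℕ} {ℓ : St n → X} :
    ∀ d (s s' : St n), Sync N d s s' → labk t N ℓ d s = labk t N ℓ d s'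
  | 0, s, s', h => by
    have h' : s = s' := h
    rw [h']
  | d + 1, s, s', h => by
    simp only [labk]
    congr 1
    funext j
    exact labk_sync d _ _ (h j)

theorem loop_of_hyp {t : (Fin n → X) → X} {G : X → X → Prop} {N : ℕ} {r a e : X} {γ : Fin n → X}
    {g : Bool → Fin n → ℕ → X} (H : Hyp t G N r a e γ g) : ∃ x, G x x := by
  rcases Nat.eq_zero_or_pos n with hn | hn
  · subst hn
    refine ⟨r, ?_⟩
    have h1 : r = a := by
      have e1 := H.idem r
      have e2 := H.idem a
      rw [← e1, ← e2]
      congr 1
      funext j
      exact j.elim0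
    have := H.ra
    rw [← h1] at this
    exact this
  · set d := (n * (N + 4) + (N + 4) + n + 1) + 4 + 5 with hd
    let s : St n := ⟨⟨0, hn⟩, false, false, false, false, false, 1⟩
    have hs : Valid N s := by
      refine ⟨?_, ?_, ?_, ?_, ?_, ?_, ?_, ?_, ?_⟩ <;> simp [s]
    refine ⟨labk t N (lab t N r a e γ g) d s, ?_⟩
    have h1 := labk_step (t := t) H.comp (lab_step H) d s hs
    have h2 : labk t N (lab t N r a e γ g) (d + 1) s = labk t N (lab t N r a e γ g) d s := by
      have : (fun j => labk t N (lab t N r a e γ g) d (step N s j)) =
          fun _ => labk t N (lab t N r a e γ g) d s := by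
        funext j
        exact labk_sync d _ _ (sync_all N _ _ (hs.step j) hs)
      simp only [labk] at this ⊢
      rw [this, H.idem]
    rw [h2] at h1
    exact h1

end Pool.Agent.H333R3.Edge
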