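/-
Walks, good elements, and pushing the star elements forward.
-/
import Mathlib
import Pool.Agent.H333R3.Edge.Loop

set_option autoImplicit false

namespace Pool.Agent.H333R3.Edge

variable {n : ℕ} {X : Type*}

/-- There is a walk of length `k` from `x` to `y`. -/
def Wk (G : X → X → Prop) (k : ℕ) (x y : X) : Prop :=
  ∃ g : ℕ → X, g 0 = x ∧ g k = y ∧ ∀ c, c < k → G (g c) (g (c + 1))

theorem Wk.zero (G : X → X → Prop) (x : X) : Wk G 0 x x :=
  ⟨fun _ => x, rfl, rfl, fun c hc => absurd hc (Nat.not_lt_zero c)⟩

theorem Wk.cons {G : X → X → Prop} {k : ℕ} {x y z : X} (h : G x y) (w : Wk G k y z) :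
    Wk G (k + 1) x z := by
  obtain ⟨g, g0, gk, hg⟩ := w
  refine ⟨fun c => if c = 0 then x else g (c - 1), by simp, by simp [gk], ?_⟩
  intro c hc
  by_cases h0 : c = 0
  · subst h0
    simpa [g0] using h
  · have := hg (c - 1) (by omega)
    rw [show c - 1 + 1 = c by omega] at this
    simpa [h0] using this

theorem Wk.trans {G : X → X → Prop} {k l : ℕ} {x y z : X} (w : Wk G k x y) (w' : Wk G l y z) :
    Wk G (k + l) x z := by
  induction k generalizing x with
  | zero =>
    obtain ⟨g, g0, gk, _⟩ := w
    rw [g0] at gk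
    subst gk
    rw [Nat.zero_add]
    exact w'
  | succ k ih =>
    obtain ⟨g, g0, gk, hg⟩ := w
    rw [show k + 1 + l = (k + l) + 1 by omega, ← g0]
    refine Wk.cons (hg 0 (Nat.succ_pos k)) (ih ⟨fun c => g (c + 1), rfl, gk, ?_⟩)
    intro c hc
    exact hg (c + 1) (by omega)

theorem Wk.one {G : X → X → Prop} {x y : X} (h : G x y) : Wk G 1 x y :=
  Wk.cons h (Wk.zero G y)

theorem Wk.map {t : (Fin n → X) → X} {G : X → X → Prop}
    (hG : ∀ x y : Fin n → X, (∀ j, G (x j) (y j)) → G (t x) (t y)) {k : ℕ} {x y : Fin n → X}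
    (h : ∀ j, Wk G k (x j) (y j)) : Wk G k (t x) (t y) := by
  choose g g0 gk hg using h
  exact ⟨fun c => t (fun j => g j c), by simp only [g0], by simp only [gk],
    fun c hc => hG _ _ (fun j => hg j c hc)⟩

/-- Connected to and from `r` by walks of every length `≥ 5`. -/
def Good (G : X → X → Prop) (r x : X) : Prop := ∀ k, 5 ≤ k → Wk G k r x ∧ Wk G k x r

theorem Good.map {t : (Fin n → X) → X} {G : X → X → Prop}
    (hid : ∀ x, t (fun _ => x) = x)
    (hG : ∀ x y : Fin n → X, (∀ j, G (x j) (y j)) → G (t x) (t y)) {r : X} {x : Fin n → X}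
    (h : ∀ j, Good G r (x j)) : Good G r (t x) := by
  intro k hk
  constructor
  · have := Wk.map hG (x := fun _ => r) (y := x) (fun j => (h j k hk).1)
    rwa [hid] at this
  · have := Wk.map hG (x := x) (y := fun _ => r) (fun j => (h j k hk).2)
    rwa [hid] at this

section
variable {G : X → X → Prop} {r a e : X} (ra : G r a) (ar : G a r) (re : G r e) (ea : G e a)
include ra ar re ea

theorem closed_walk : ∀ k, 2 ≤ k → Wk G k r r := by
  intro k
  induction k using Nat.strong_induction_on with
  | _ k ih =>
    intro hk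
    by_cases h2 : k = 2
    · subst h2
      exact Wk.cons ra (Wk.cons ar (Wk.zero G r))
    · by_cases h3 : k = 3
      · subst h3
        exact Wk.cons re (Wk.cons ea (Wk.cons ar (Wk.zero G r)))
      · have := ih (k - 2) (by omega) (by omega)
        have h := Wk.cons ra (Wk.cons ar this)
        rwa [show k - 2 + 1 + 1 = k by omega] at h

theorem good_r : Good G r r := fun k hk =>
  ⟨closed_walk ra ar re ea k (by omega), closed_walk ra ar re ea k (by omega)⟩

theorem good_a : Good G r a := by
  intro k hk
  constructor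
  · have := (closed_walk ra ar re ea (k - 1) (by omega)).trans (Wk.one ra)
    rwa [show k - 1 + 1 = k by omega] at this
  · have := Wk.cons ar (closed_walk ra ar re ea (k - 1) (by omega))
    rwa [show k - 1 + 1 = k by omega] at this

theorem good_e : Good G r e := by
  intro k hk
  constructor
  · have := (closed_walk ra ar re ea (k - 1) (by omega)).trans (Wk.one re)
    rwa [show k - 1 + 1 = k by omega] at this
  · have := Wk.cons ea (Wk.cons ar (closed_walk ra ar re ea (k - 2) (by omega)))
    rwa [show k - 2 + 1 + 1 = k by omega] at this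

omit ra re ea in
/-- Pushing a star element forward. -/
theorem push {t : (Fin n → X) → X}
    (hG : ∀ x y : Fin n → X, (∀ j, G (x j) (y j)) → G (t x) (t y)) (i : Fin n) (α : Fin n → X)
    (hα : ∀ j, Good G r (α j)) (hs : G (α i) (t α)) :
    ∃ γ, Wk G 11 r γ ∧ Wk G 11 a γ ∧ G γ (t (Function.update (fun _ => r) i γ)) := by
  have hw : ∀ j, Wk G 5 (α j) r := fun j => (hα j 5 le_rfl).2
  choose h h0 h5 hh using hw
  have main : ∀ m, m ≤ 5 → ∃ z, Wk G m (α i) z ∧
      G z (t (Function.update (fun j => h j m) i z)) := by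
    intro m
    induction m with
    | zero =>
      intro _
      refine ⟨α i, Wk.zero G _, ?_⟩
      have : Function.update (fun j => h j 0) i (α i) = α := by
        funext j
        by_cases hj : j = i
        · subst hj
          simp
        · rw [Function.update_of_ne hj, h0]
      rw [this]
      exact hs
    | succ m ih =>
      intro hm
      obtain ⟨z, hz, hz'⟩ := ih (by omega)
      refine ⟨t (Function.update (fun j => h j m) i z), hz.trans (Wk.one hz'), ?_⟩
      refine hG _ _ (fun j => ?_)
      by_cases hj : j = i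
      · subst hj
        rw [Function.update_self, Function.update_self]
        exact hz'
      · rw [Function.update_of_ne hj, Function.update_of_ne hj]
        exact hh j m (by omega)
  obtain ⟨γ, hγ, hγ'⟩ := main 5 le_rfl
  refine ⟨γ, ((hα i 6 (by omega)).1).trans hγ, ?_, ?_⟩
  · exact Wk.cons ar (((hα i 5 le_rfl).1).trans hγ)
  · have : (fun j => h j 5) = fun _ => r := funext h5
    rw [this] at hγ'
    exact hγ'

/-- The loop lemma. -/
theorem loop_lemma {t : (Fin n → X) → X} (hid : ∀ x, t (fun _ => x) = x)
    (hG : ∀ x y : Fin n → X, (∀ j, G (x j) (y j)) → G (t x) (t y))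
    (hα : ∀ i : Fin n, ∃ α : Fin n → X, (∀ j, Good G r (α j)) ∧ G (α i) (t α)) :
    ∃ x, G x x := by
  have h1 : ∀ i, ∃ γ, Wk G 11 r γ ∧ Wk G 11 a γ ∧
      G γ (t (Function.update (fun _ => r) i γ)) := by
    intro i
    obtain ⟨α, h, h'⟩ := hα i
    exact push ar hG i α h h'
  choose γ hr ha hγ using h1
  choose gr gr0 grN grs using hr
  choose ga ga0 gaN gas using ha
  refine loop_of_hyp (N := 11) (r := r) (a := a) (e := e) (γ := γ)
    (g := fun b i => cond b (ga i) (gr i)) ⟨by omega, hid, hG, ra, ar, re, ea, ?_, ?_, ?_, hγ⟩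
  · intro b i
    cases b
    · exact gr0 i
    · exact ga0 i
  · intro b i
    cases b
    · exact grN i
    · exact gaN i
  · intro b i c hc
    cases b
    · exact grs i c hc
    · exact gas i c hc

end

end Pool.Agent.H333R3.Edge
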