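/-
The ternary relation of a weak 3-edge term and the star elements coming from Taylor identities.
-/
import Mathlib
import Pool.Agent.H333R3.Edge.Push

set_option autoImplicit false

namespace Pool.Agent.H333R3.Edge

/-- The digraph attached to a ternary relation. -/
def DG {B : Type*} (R : B → B → B → Prop) (x y : B × B) : Prop :=
  x.2 = y.1 ∧ R x.1 y.2 x.2

theorem const_of_taylor {B : Type*} {n : ℕ} (t : (Fin n → B) → B) (R : B → B → B → Prop)
    (u v : B)
    (hid : ∀ x, t (fun _ => x) = x)
    (hR : ∀ x y z : Fin n → B, (∀ j, R (x j) (y j) (z j)) → R (t x) (t y) (t z))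
    (h0 : R v v u) (h1 : R v u u) (h2 : R u v u) (h3 : R u u v)
    (hT : ∀ i : Fin n, ∃ P Q : Fin n → Bool, P i = true ∧ Q i = false ∧
      ∀ x y : B, t (fun k => cond (P k) x y) = t (fun k => cond (Q k) x y)) :
    ∃ p, R p p p := by
  -- coordinatewise operation on `B × B`
  let T : (Fin n → B × B) → B × B := fun x => (t (fun j => (x j).1), t (fun j => (x j).2))
  have Tid : ∀ x, T (fun _ => x) = x := by
    intro x
    exact Prod.ext (hid x.1) (hid x.2)
  have TG : ∀ x y : Fin n → B × B, (∀ j, DG R (x j) (y j)) → DG R (T x) (T y) := by
    intro x y h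
    refine ⟨?_, hR _ _ _ (fun j => (h j).2)⟩
    change t _ = t _
    congr 1
    funext j
    exact (h j).1
  have ra : DG R (v, u) (u, v) := ⟨rfl, h0⟩
  have ar : DG R (u, v) (v, u) := ⟨rfl, h3⟩
  have re : DG R (v, u) (u, u) := ⟨rfl, h1⟩
  have ea : DG R (u, u) (u, v) := ⟨rfl, h2⟩
  have gr : Good (DG R) (v, u) (v, u) := good_r ra ar re ea
  have ga : Good (DG R) (v, u) (u, v) := good_a ra ar re ea
  have ge : Good (DG R) (v, u) (u, u) := good_e ra ar re ea
  have star : ∀ i : Fin n, ∃ α : Fin n → B × B, (∀ j, Good (DG R) (v, u) (α j)) ∧
      DG R (α i) (T α) := by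
    intro i
    obtain ⟨P, Q, hP, hQ, hPQ⟩ := hT i
    -- the elements
    let a' : B := t (fun k => cond (Q k) u v)
    let b : B := t (fun k => cond (P k) a' u)
    have hb : b = t (fun k => cond (Q k) a' u) := hPQ a' u
    let c' : B := t (fun k => cond (Q k) v u)
    let q : Fin n → B := fun j => if j = i then b else cond (Q j) c' u
    -- the relation
    have R1 : R u c' a' := by
      have := hR (fun _ => u) (fun k => cond (Q k) v u) (fun k => cond (Q k) u v) (fun k => by
        cases Q k
        · exact h3
        · exact h2)
      rwa [hid] at this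
    have R2 : R v a' u := by
      have := hR (fun _ => v) (fun k => cond (Q k) u v) (fun _ => u) (fun k => by
        cases Q k
        · exact h0
        · exact h1)
      rwa [hid, hid] at this
    have R3 : R v b u := by
      have := hR (fun _ => v) (fun k => cond (Q k) a' u) (fun _ => u) (fun k => by
        cases Q k
        · exact h1
        · exact R2)
      rwa [hid, hid, ← hb] at this
    have R4 : R a' (t q) b := by
      have := hR (fun k => cond (Q k) u v) q (fun k => cond (Q k) a' u) (fun k => by
        by_cases hk : k = i
        · subst hk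
          simp only [q, hQ, if_true, cond_false]
          exact R3
        · simp only [q, if_neg hk]
          cases Q k
          · exact h1
          · exact R1)
      rwa [← hb] at this
    -- good elements
    have pairT : ∀ x1 y1 x2 y2 : B, T (fun k => cond (Q k) (x1, y1) (x2, y2)) =
        (t (fun k => cond (Q k) x1 x2), t (fun k => cond (Q k) y1 y2)) := by
      intro x1 y1 x2 y2
      refine Prod.ext ?_ ?_
      · refine congrArg t (funext fun k => ?_)
        beta_reduce
        cases Q k <;> rfl
      · refine congrArg t (funext fun k => ?_)
        beta_reduce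
        cases Q k <;> rfl
    have cu : t (fun k => cond (Q k) u u) = u := by
      have : (fun k => cond (Q k) u u) = fun _ => u := by
        funext k
        cases Q k <;> rfl
      rw [this, hid]
    have goodT : ∀ x y : B × B, Good (DG R) (v, u) x → Good (DG R) (v, u) y →
        Good (DG R) (v, u) (T (fun k => cond (Q k) x y)) := by
      intro x y hx hy
      refine Good.map Tid TG (fun k => ?_)
      cases Q k
      · exact hy
      · exact hx
    have g1 : Good (DG R) (v, u) (a', c') := by
      have := goodT _ _ ga gr
      rwa [pairT] at this
    have g2 : Good (DG R) (v, u) (a', u) := by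
      have := goodT _ _ ge gr
      rwa [pairT, cu] at this
    have g3 : Good (DG R) (v, u) (u, c') := by
      have := goodT _ _ ga ge
      rwa [pairT, cu] at this
    have g4 : Good (DG R) (v, u) (u, a') := by
      have := goodT _ _ ge ga
      rwa [pairT, cu] at this
    have g5 : Good (DG R) (v, u) (a', b) := by
      have := goodT _ _ g4 gr
      rwa [pairT, ← hb] at this
    refine ⟨fun j => (cond (P j) a' u, q j), ?_, ?_⟩
    · intro j
      by_cases hj : j = i
      · subst hj
        simp only [q, hP, if_true, cond_true]
        exact g5
      · simp only [q, if_neg hj]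
        cases P j <;> cases Q j
        · exact ge
        · exact g3
        · exact g2
        · exact g1
    · refine ⟨?_, ?_⟩
      · change q i = b
        simp [q]
      · change R (cond (P i) a' u) (t q) (q i)
        have : q i = b := by simp [q]
        rw [hP, this]
        exact R4
  obtain ⟨⟨p, q⟩, hpq, h⟩ := loop_lemma ra ar re ea Tid TG star
  have hpq' : q = p := hpq
  subst hpq'
  exact ⟨q, h⟩

end Pool.Agent.H333R3.Edge
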